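import Pool.Agent.Lib.MP_b5021c_nt.IfaceB

/-!
# Board b5, row MIN

A lower bound for a functional on the support of `G H` is a bound on the support of `G` if `0` is in
the support of `H`.
-/

namespace Pool.Agent.B5.MIN

open Pool.Agent.B5

/-- The lowest part of a product (coefficientwise). -/
theorem coeff_low {K : Type} [Semiring K] {L : Type} [AddCommGroup L] (G H : AddMonoidAlgebra K L)
    (k : L →+ ℤ) (m₁ m₂ : ℤ) (h₁ : ∀ a ∈ supp G, m₁ ≤ k a) (h₂ : ∀ a ∈ supp H, m₂ ≤ k a)
    (a : L) (ha : k a = m₁ + m₂) :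
    (G * H).coeff a = (gpart k m₁ G * gpart k m₂ H).coeff a := by
  classical
  rw [AddMonoidAlgebra.coeff_mul, AddMonoidAlgebra.coeff_mul]
  unfold Finsupp.sum
  have e1 : (gpart k m₁ G).coeff = G.coeff.filter fun a => k a = m₁ := rfl
  have e2 : (gpart k m₂ H).coeff = H.coeff.filter fun a => k a = m₂ := rfl
  rw [e1, e2, Finsupp.support_filter, Finsupp.support_filter, Finset.sum_filter]
  refine Finset.sum_congr rfl fun b hb => ?_
  have hb' : m₁ ≤ k b := h₁ b (Finsupp.mem_support_iff.1 hb)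
  beta_reduce
  split_ifs with h3
  · rw [Finset.sum_filter]
    refine Finset.sum_congr rfl fun c hc => ?_
    have hc' : m₂ ≤ k c := h₂ c (Finsupp.mem_support_iff.1 hc)
    rw [Finsupp.filter_apply_pos (fun a => k a = m₁) G.coeff h3]
    by_cases h4 : k c = m₂
    · rw [if_pos h4, Finsupp.filter_apply_pos (fun a => k a = m₂) H.coeff h4]
    · rw [if_neg h4, if_neg]
      intro h5
      apply h4
      have h6 : k b + k c = m₁ + m₂ := by rw [← map_add, h5, ha]
      linarith
  · refine Finset.sum_eq_zero fun c hc => ?_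
    have hc' : m₂ ≤ k c := h₂ c (Finsupp.mem_support_iff.1 hc)
    beta_reduce
    rw [if_neg]
    intro h5
    apply h3
    have h6 : k b + k c = m₁ + m₂ := by rw [← map_add, h5, ha]
    linarith

/-- A nonzero element has a nonzero lowest part. -/
theorem exists_low {K : Type} [Semiring K] {L : Type} [AddCommGroup L] (G : AddMonoidAlgebra K L)
    (hG : G ≠ 0) (k : L →+ ℤ) :
    ∃ m : ℤ, (∀ a ∈ supp G, m ≤ k a) ∧ gpart k m G ≠ 0 := by
  classical
  have h1 : G.coeff.support.Nonempty := by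
    rw [Finsupp.support_nonempty_iff]
    intro h2
    apply hG
    apply AddMonoidAlgebra.ext
    rw [h2]
    rfl
  obtain ⟨a, ha, hmin⟩ := Finset.exists_min_image G.coeff.support (fun a => k a) h1
  refine ⟨k a, fun b hb => hmin b (Finsupp.mem_support_iff.2 hb), fun h2 => ?_⟩
  have h3 : (gpart k (k a) G).coeff a = G.coeff a := by
    have e1 : (gpart k (k a) G).coeff = G.coeff.filter fun b => k b = k a := rfl
    rw [e1, Finsupp.filter_apply_pos (fun b => k b = k a) G.coeff rfl]
  rw [h2] at h3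
  exact Finsupp.mem_support_iff.1 ha h3.symm

/-- Row MIN. -/
theorem min : MinS := by
  intro O _ _ _ _ L _ _ _ G H hG hH k m hm a ha
  have hH0 : H ≠ 0 := by
    intro h
    apply hH
    rw [h]
    rfl
  obtain ⟨m₁, h1, h1'⟩ := exists_low G hG k
  obtain ⟨m₂, h2, h2'⟩ := exists_low H hH0 k
  have h3 : gpart k m₁ G * gpart k m₂ H ≠ 0 := mul_ne_zero h1' h2'
  obtain ⟨b, hb⟩ : ∃ b, (gpart k m₁ G * gpart k m₂ H).coeff b ≠ 0 := by
    by_contra h4
    push Not at h4
    apply h3
    apply AddMonoidAlgebra.ext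
    apply Finsupp.ext
    intro b
    rw [h4 b]
    rfl
  have hkb : k b = m₁ + m₂ := by
    classical
    rw [AddMonoidAlgebra.coeff_mul] at hb
    obtain ⟨c, hc, hc'⟩ := Finset.exists_ne_zero_of_sum_ne_zero hb
    obtain ⟨d, hd, hd'⟩ := Finset.exists_ne_zero_of_sum_ne_zero hc'
    have e1 : (gpart k m₁ G).coeff = G.coeff.filter fun a => k a = m₁ := rfl
    have e2 : (gpart k m₂ H).coeff = H.coeff.filter fun a => k a = m₂ := rfl
    rw [e1, Finsupp.support_filter, Finset.mem_filter] at hc
    rw [e2, Finsupp.support_filter, Finset.mem_filter] at hd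
    have h5 : c + d = b := by
      by_contra h6
      exact hd' (if_neg h6)
    rw [← h5, map_add, hc.2, hd.2]
  have h5 : b ∈ supp (G * H) := by
    change (G * H).coeff b ≠ 0
    rw [coeff_low G H k m₁ m₂ h1 h2 b hkb]
    exact hb
  have h6 : m ≤ k b := hm b h5
  have h7 : m₂ ≤ k 0 := h2 0 hH
  rw [map_zero] at h7
  have h8 : m₁ ≤ k a := h1 a ha
  linarith

end Pool.Agent.B5.MIN
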